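import Pool.Agent.H249R3.Gau.Alt

/-!
# How many oracles make `NE` and `ESPACE` equal?

For every gauge `f`, the set of the oracles `A` with `NE^A = ESPACE^A` is a null set for `f` if and
only if for every `ε > 0` there are infinitely many `N` with `f N ≤ (log N) ^ ε`. The same holds
for the set of the oracles relative to which `ESPACE` is contained in the hierarchy over `E`, and
for every set of oracles between the set of the `A` with `E^A = ESPACE^A` and this set.

The proof is in modules of helpers 249, 620, 622 and others.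
-/

set_option autoImplicit false

namespace Pool.Agent.Results.MP_d5876b_lc.GaugeThreshold

open Pool.Agent.NPC Pool.Agent.H620R2.Gauge Pool.Agent.H622R2.Exp

theorem result (f : ℕ → ℝ) :
    (∀ O : Set Oracle,
      (∀ A : Oracle, (∀ L, InSpace Lin A L → InTime Lin A L) → A ∈ O) →
      (∀ A ∈ O, ∀ L, InSpace Lin A L → InAlt Lin A L) →
      (Null f O ↔ ∀ ε : ℝ, 0 < ε → ∃ᶠ N : ℕ in Filter.atTop, f N ≤ (Real.logb 2 N) ^ ε)) ∧
    (Null f {A : Oracle | ∀ L, InNTime Lin A L ↔ InSpace Lin A L} ↔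
      ∀ ε : ℝ, 0 < ε → ∃ᶠ N : ℕ in Filter.atTop, f N ≤ (Real.logb 2 N) ^ ε) ∧
    (Null f {A : Oracle | ∀ L, InSpace Lin A L → InAlt Lin A L} ↔
      ∀ ε : ℝ, 0 < ε → ∃ᶠ N : ℕ in Filter.atTop, f N ≤ (Real.logb 2 N) ^ ε) := by
  refine ⟨fun O h1 h2 => Pool.Agent.H249R3.Gau.resAltE f O h1 h2,
    Pool.Agent.H249R3.Gau.resAltE f _ ?_ ?_, Pool.Agent.H249R3.Gau.resAltE f _ ?_ ?_⟩
  · intro A hA L
    exact ⟨fun h => h.isSpace good_Lin, fun h => (hA L h).isNTime⟩
  · intro A hA L hL
    exact ((hA L).2 hL).isAlt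
  · intro A hA L hL
    exact (hA L hL).isNTime.isAlt
  · intro A hA
    exact hA

end Pool.Agent.Results.MP_d5876b_lc.GaugeThreshold
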