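import Pool.Agent.W900.CH.Thin

/-!
# On how thin a set of strings can a random oracle be changed to make `NE` and `ESPACE` equal?

`census Z n` is the number of the strings of length at most `n` in the set `Z`. If for every `ε > 0`
there are infinitely many `n` with `census Z n ≤ n ^ ε`, then for almost every oracle `O` and all
oracles `A` that agree with `O` outside `Z`, `NE^A ≠ ESPACE^A`, and `ESPACE^A` is not even contained
in the hierarchy over `E^A`. On the other hand, for every `ε > 0` there is a set `Z` with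
`census Z n ≤ n ^ ε` for all large `n`, such that all oracles can be changed on `Z` such that
`NE^A = ESPACE^A`; and for almost every oracle all changes on `Z` preserve `NP^A ⊄ coNP^A / poly`.
-/

set_option autoImplicit false

namespace Pool.Agent.Results.MP_d5876b_lc.ThinChanges

open Pool.Agent.NPC Pool.Agent.H620R2.Gauge Pool.Agent.H622R2.Exp Pool.Agent.W900.CH
open Pool.Agent.H628R3.RO (randomOracle)
open MeasureTheory Filter

theorem result :
    (∀ Z : Set (List Bool),
      (∀ ε : ℝ, 0 < ε → ∃ᶠ n : ℕ in atTop, (census Z n : ℝ) ≤ (n : ℝ) ^ ε) →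
      ∀ᵐ O ∂randomOracle, ∀ A : Oracle, (∀ y ∉ Z, A y = O y) →
        (∃ L, InSpace Lin A L ∧ ¬ InNTime Lin A L) ∧ ∃ L, InSpace Lin A L ∧ ¬ InAlt Lin A L) ∧
    ∀ ε : ℝ, 0 < ε → ∃ Z : Set (List Bool),
      (∀ᶠ n : ℕ in atTop, (census Z n : ℝ) ≤ (n : ℝ) ^ ε) ∧
      (∀ O : Oracle, ∃ A : Oracle, (∀ y ∉ Z, A y = O y) ∧
        ∀ L, InNTime Lin A L ↔ InSpace Lin A L) ∧
      ∀ᵐ O ∂randomOracle, ∀ A : Oracle, (∀ y ∉ Z, A y = O y) →
        ∃ L, IsNP A L ∧ ¬ WithAdvice (IsNP A) Lᶜ := by
  refine ⟨fun Z hZ => ?_, fun ε hε => ?_⟩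
  · have hN : Null (fun N => (census Z (Nat.log 2 N) : ℝ))
        {A : Oracle | ∀ L, InSpace Lin A L → InAlt Lin A L} := by
      refine (Pool.Agent.H249R3.Gau.resAltE _ _
        (fun A hA L hL => (hA L hL).isNTime.isAlt) fun A hA => hA).2 fun ε hε => ?_
      exact freq_pow (F := fun x => x ^ ε) (hZ ε hε)
    filter_upwards [ae_thin hN] with O hO A hA
    have h1 := hO A hA
    have h2 : ∃ L, InSpace Lin A L ∧ ¬ InAlt Lin A L := by
      by_contra h2
      push Not at h2
      exact h1 h2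
    obtain ⟨L, h3, h4⟩ := h2
    exact ⟨⟨L, h3, fun h => h4 h.isAlt⟩, L, h3, h4⟩
  · obtain ⟨Z, hZ, h⟩ := exists_thin_E hε
    refine ⟨Z, hZ, fun O => ?_, ?_⟩
    · obtain ⟨A, h1, h2⟩ := h O
      exact ⟨A, h1, fun L => ⟨fun h => h.isSpace good_Lin, fun h => (h2 L h).isNTime⟩⟩
    · filter_upwards [ae_coNP (g := fun n => (n : ℝ) ^ ε)
        (cond_of_pow hε (Eventually.of_forall fun n => le_rfl))] with O hO A hA
      exact hO A (close_of_thin hZ hA)

end Pool.Agent.Results.MP_d5876b_lc.ThinChanges
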